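import Pool.Agent.U188.CS.Iso

/-!
# Sections lift to the coverings of degree a power of three, up to rational points
-/

set_option autoImplicit false
set_option linter.all false

namespace Pool.Agent.U188.CS

open NumberField IsDedekindDomain WeierstrassCurve MvPolynomial
open Pool.Agent.TH954
open Pool.Agent.TH942 (sw)
open Pool.Agent.Y696.CTK (ED)
open Pool.Agent.U188.CT (Kill coc_kill)
open Pool.Agent.U188.SC (FixedBy LiftsTo geo fixedP)
open scoped Classical

section

variable {K : Type} [Field K] [NumberField K] {M : Type} [Field M] [Algebra K M]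

lemma charZero_comp (v : HeightOneSpectrum (𝓞 K)) : CharZero (v.adicCompletion K) :=
  charZero_of_injective_algebraMap (algebraMap K (v.adicCompletion K)).injective

/-- **The section lifts to the coverings, up to a rational point.** -/
theorem lifts_diff {D s : ℕ} (hD : D ≠ 0) (hkill : Kill (ED (D : K)) s)
    (hcx : ∀ w : InfinitePlace K, w.IsComplex) (A : SAct K M)
    {P : ((SD K D).baseChange M).toAffine.Point}
    (hP : ∀ τ, A.pt 0 ((D : K) ^ 2 / 4) τ P = P) {k : ℕ}
    {Q : ((SD K D).baseChange M).toAffine.Point} (hQ : 3 ^ (k + s) • Q = P)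
    (htor : ∀ T : ((SD K D).baseChange M).toAffine.Point, 3 ^ (k + s) • T = 0 →
      ∃ T0, pm (SD K D) A.j T0 = T)
    (pl : ∀ v : HeightOneSpectrum (𝓞 K), Plc K M (AlgebraicClosure (v.adicCompletion K)))
    (hpl : ∀ v, GeoPlc A (pl v)) :
    ∃ (y : ((SD K D).baseChange K).toAffine.Point) (Q' : ((SD K D).baseChange M).toAffine.Point),
      3 ^ k • Q' = P - pm (SD K D) A.j (incl (SD K D) K y) ∧
      ∀ τ, A.pt 0 ((D : K) ^ 2 / 4) τ Q' = Q' := by
  have hcv' : ∀ v : HeightOneSpectrum (𝓞 K), CharZero (AlgebraicClosure (v.adicCompletion K)) :=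
    fun v => by
      have := charZero_comp v
      exact charZero_of_injective_algebraMap
        (algebraMap (v.adicCompletion K) (AlgebraicClosure (v.adicCompletion K))).injective
  choose red h1 h2 using fun v => exists_redM (pl v) (disc_SD (K := K) hD)
  obtain ⟨ξ, hξ, hξN, hξj⟩ := exists_cocycle A hQ hP htor
  obtain ⟨R', y', hy', hR'⟩ := coc_kill (E := ED (D : K)) k s hkill (back D ξ) (back_coc hξ)
    (fun σ => by
      unfold back
      rw [← map_nsmul, hξN, map_zero])
    (fun v => back_triv ⟨(pl v).iot A.j, red v Q, (cocycle_local A (hpl v) (h1 v) (h2 v) hξj).1⟩)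
    (fun w => complex_triv (back_coc hξ) w (hcx w))
  set R : AlgPt (SD K D) K := th K D _ R' with hRdef
  set y : ((SD K D).baseChange K).toAffine.Point := th K D K y' with hydef
  have hy : incl (SD K D) K y = 3 ^ k • R := by
    have := congrArg (th K D (AlgebraicClosure K)) hy'
    rw [map_nsmul] at this
    rw [← this, hydef]
    exact (th_pm D _ y').symm
  have hR : ∀ σ, 3 ^ s • ξ σ = act (SD K D) σ R - R := by
    intro σ
    have := congrArg (th K D (AlgebraicClosure K)) (hR' σ)
    rw [map_nsmul, map_sub, th_act] at this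
    rw [← this]
    unfold back
    rw [AddEquiv.apply_symm_apply]
  refine ⟨y, 3 ^ s • Q - pm (SD K D) A.j R, ?_, fun τ => ?_⟩
  · rw [smul_sub, ← mul_smul, ← pow_add, hQ, hy, ← map_nsmul]
  · have e1 : A.pt 0 ((D : K) ^ 2 / 4) τ (3 ^ s • Q - pm (SD K D) A.j R) =
        3 ^ s • A.pt 0 ((D : K) ^ 2 / 4) τ Q -
          A.pt 0 ((D : K) ^ 2 / 4) τ (pm (SD K D) A.j R) := by
      have e0 : A.pt 0 ((D : K) ^ 2 / 4) τ (3 ^ s • Q - pm (SD K D) A.j R) =
        A.pt 0 ((D : K) ^ 2 / 4) τ (3 ^ s • Q) -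
          A.pt 0 ((D : K) ^ 2 / 4) τ (pm (SD K D) A.j R) := map_sub _ _ _
      have e00 : A.pt 0 ((D : K) ^ 2 / 4) τ (3 ^ s • Q) = 3 ^ s • A.pt 0 ((D : K) ^ 2 / 4) τ Q :=
        map_nsmul _ _ _
      rw [e0, e00]
    have e2 : A.pt 0 ((D : K) ^ 2 / 4) τ Q = pm (SD K D) A.j (ξ τ) + Q := by
      rw [hξj τ, sub_add_cancel]
    have e3 : A.pt 0 ((D : K) ^ 2 / 4) τ (pm (SD K D) A.j R) =
        pm (SD K D) A.j (act (SD K D) τ R) := A.pt_j _ _
    have e4 : act (SD K D) τ R = 3 ^ s • ξ τ + R := by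
      rw [hR τ, sub_add_cancel]
    rw [e1, e2, e3, e4, smul_add, map_add, map_nsmul]
    abel

/-- the local point of a point fixed by the section -/
theorem local_fix {a b : K} (A : SAct K M) {L : Type} [Field L] [CharZero L] [Algebra K L]
    {pl : Plc K M (AlgebraicClosure L)} (hpl : GeoPlc A pl)
    {red : ((sw a b).baseChange M).toAffine.Point →+ AlgPt (sw a b) L}
    (h1 : ∀ x y h, x ∉ pl.W → red (.some x y h) = 0)
    (h2 : ∀ x y h (hx : x ∈ pl.W), ∃ (hy : y ∈ pl.W)
      (h' : ((sw a b).baseChange (AlgebraicClosure L)).toAffine.Nonsingular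
        (pl.ρ ⟨x, hx⟩) (pl.ρ ⟨y, hy⟩)), red (.some x y h) = .some _ _ h')
    {Q : ((sw a b).baseChange M).toAffine.Point} (hQ : ∀ τ, A.pt a b τ Q = Q) :
    ∃ z : ((sw a b).baseChange L).toAffine.Point, incl (sw a b) L z = red Q := by
  refine exists_of_fixed _ (fun σ => ?_)
  refine (cocycle_local A hpl h1 h2 (Q := Q) (ξ := fun _ => 0) (fun σ => ?_)).2 Q hQ σ
  rw [map_zero, hQ, sub_self]

/-- the local points of a section -/
theorem locals_diff {a b : K} (hD : 4 * a ^ 3 + 27 * b ^ 2 ≠ 0) (A : SAct K M)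
    {v : HeightOneSpectrum (𝓞 K)} {pl : Plc K M (AlgebraicClosure (v.adicCompletion K))}
    (hp : GeoPlc A pl) (P : ((sw a b).baseChange M).toAffine.Point) (hP : ∀ τ, A.pt a b τ P = P) :
    ∃ Pv : ((sw a b).baseChange (v.adicCompletion K)).toAffine.Point,
      (∃ u : M, u ≠ 0 ∧ ∀ j, ∃ h : u * crd P j ∈ pl.W, pl.ρ ⟨_, h⟩ =
          algebraMap (v.adicCompletion K) (AlgebraicClosure (v.adicCompletion K)) (crd Pv j)) ∧
      ∀ (N : ℕ) (y : ((sw a b).baseChange K).toAffine.Point)
        (Q' : ((sw a b).baseChange M).toAffine.Point),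
        N • Q' = P - pm (sw a b) A.j (incl (sw a b) K y) → (∀ τ, A.pt a b τ Q' = Q') →
        ∃ z : ((sw a b).baseChange (v.adicCompletion K)).toAffine.Point,
          Pv = pm (sw a b) (Algebra.ofId K (v.adicCompletion K)) y + N • z := by
  have := charZero_comp v
  have hc : CharZero (AlgebraicClosure (v.adicCompletion K)) :=
    charZero_of_injective_algebraMap
        (algebraMap (v.adicCompletion K) (AlgebraicClosure (v.adicCompletion K))).injective
  obtain ⟨red, h1, h2⟩ := exists_redM pl hD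
  obtain ⟨Pv, hPv⟩ := local_fix A hp h1 h2 hP
  refine ⟨Pv, ?_, fun N y Q' hQ' hf => ?_⟩
  · obtain ⟨u, hu0, hu⟩ := red_crd (pl := pl) (red := red) (map_zero red) h1 h2 P
    refine ⟨u, hu0, fun j => ?_⟩
    obtain ⟨h3, h4⟩ := hu j
    refine ⟨h3, h4.trans ?_⟩
    rw [← hPv]
    exact Pool.Agent.TH954.crd_pm _ _ _
  · obtain ⟨z, hz⟩ := local_fix A hp h1 h2 hf
    refine ⟨z, incl_injective ?_⟩
    have e0 : incl (sw a b) (v.adicCompletion K)
        (pm (sw a b) (Algebra.ofId K (v.adicCompletion K)) y + N • z) =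
        incl (sw a b) _ (pm (sw a b) (Algebra.ofId K (v.adicCompletion K)) y) +
        incl (sw a b) _ (N • z) := map_add (pm (sw a b) _) _ _
    have e1 : incl (sw a b) (v.adicCompletion K) (N • z) = N • incl (sw a b) _ z :=
      map_nsmul (pm (sw a b) _) _ _
    have e2 : red (pm (sw a b) A.j (incl (sw a b) K y)) = pm (sw a b) (pl.iot A.j)
        (incl (sw a b) K y) := red_pm (pl := pl) (a := a) (b := b) (red := red) (map_zero red) h1 h2 A.j
      (pl.iot A.j) (pl.iot_spec A.j) _
    have e3 : incl (sw a b) (v.adicCompletion K)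
        (pm (sw a b) (Algebra.ofId K (v.adicCompletion K)) y) = pm (sw a b) (pl.iot A.j)
        (incl (sw a b) K y) := by
      unfold incl
      rw [pm_pm, pm_pm]
      congr 2
      apply AlgHom.ext
      intro z
      exact (((IsScalarTower.toAlgHom K (v.adicCompletion K)
        (AlgebraicClosure (v.adicCompletion K))).comp
        (Algebra.ofId K (v.adicCompletion K))).commutes z).trans
        (((pl.iot A.j).comp (IsScalarTower.toAlgHom K K (AlgebraicClosure K))).commutes z).symm
    have e4 : red P = red (N • Q') + red (pm (sw a b) A.j (incl (sw a b) K y)) := by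
      rw [← map_add, hQ', sub_add_cancel]
    rw [hPv, e0, e1, hz, e3, e4, e2, map_nsmul]
    abel

end

end Pool.Agent.U188.CS
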