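import Pool.Agent.U188.CS.Main

/-!
# Sections over curves with a map to a product of cubic twists: the theorems
-/

set_option autoImplicit false
set_option linter.all false

namespace Pool.Agent.U188.CS

open NumberField IsDedekindDomain WeierstrassCurve MvPolynomial
open Pool.Agent.TH954
open Pool.Agent.TH942 (sw)
open Pool.Agent.Y696.CTK (ED)
open Pool.Agent.R419.ST (const_V lim_V)
open Pool.Agent.U188.CT (Kill Three Tors NearT near_T crd_pm' base_EDN gen2)
open Pool.Agent.U188.SC (FixedBy LiftsTo geo fixedP)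
open Pool.Agent.W620.SC (unramified)
open scoped Classical

section

variable {K F M B : Type} [Field K] [NumberField K] [Field F] [Field M] [Field B] [Algebra K F]
  [Algebra F M] [Algebra K M] [IsScalarTower K F M] [Algebra K B] [IsAlgClosure K B]
  [Algebra.IsAlgebraic F M]

lemma LiftsDiff.mul {s : GalSection K F M B} {E : WeierstrassCurve K}
    {P : (E.baseChange F).toAffine.Point} {y : (E.baseChange K).toAffine.Point} {k l : ℕ}
    (h : LiftsDiff s E P y (3 ^ (k + l))) : LiftsDiff s E P y (3 ^ k) := by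
  obtain ⟨Q, hQ, hf⟩ := h
  refine ⟨3 ^ l • Q, by rw [← mul_smul, ← pow_add, hQ], fun g => ?_⟩
  rw [map_nsmul, hf g]

lemma LiftsDiff.le {s : GalSection K F M B} {E : WeierstrassCurve K}
    {P : (E.baseChange F).toAffine.Point} {y : (E.baseChange K).toAffine.Point} {k m : ℕ}
    (hkm : k ≤ m) (h : LiftsDiff s E P y (3 ^ m)) : LiftsDiff s E P y (3 ^ k) := by
  obtain ⟨l, rfl⟩ := Nat.exists_eq_add_of_le hkm
  exact h.mul

/-- one rational point for all powers of three -/
theorem exists_one {s : GalSection K F M B} {E : WeierstrassCurve K}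
    (hfin : Finite (E.baseChange K).toAffine.Point) {P : (E.baseChange F).toAffine.Point}
    (h : ∀ k : ℕ, ∃ y, LiftsDiff s E P y (3 ^ k)) : ∃ y, ∀ k : ℕ, LiftsDiff s E P y (3 ^ k) := by
  by_contra hcon
  push Not at hcon
  choose k hk using hcon
  have := Fintype.ofFinite (E.baseChange K).toAffine.Point
  obtain ⟨y, hy⟩ := h (Finset.univ.sup k)
  exact hk y (hy.le (Finset.le_sup (Finset.mem_univ y)))

end

section

variable {K : Type} [Field K] [CharZero K] {L : Type} [NormedField L] [IsUltrametricDist L]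
  [Algebra K L] {n : ℕ}

/-- a local point which is near a fixed rational point -/
theorem near_const [ProperSpace L] (h3 : Three L) (hT : Tors L) {D : Fin n → ℕ}
    (hD : ∀ i, ¬ 3 ∣ D i)
    (P : (i : Fin n) → ((ED (D i : K)).baseChange L).toAffine.Point)
    (y : (i : Fin n) → ((ED (D i : K)).baseChange K).toAffine.Point)
    (h : ∀ (k : ℕ) (i : Fin n), ∃ z, P i = pm (ED (D i : K)) (Algebra.ofId K L) (y i) + 3 ^ k • z) :
    ∀ i, NearT (D i) L (P i) (y i) := by
  have := h3.charZero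
  have hD0 : ∀ i, (D i : L) ≠ 0 := fun i => by
    have : D i ≠ 0 := by rintro h0; exact hD i (h0 ▸ dvd_zero 3)
    exact_mod_cast this
  obtain ⟨y', hy', h1⟩ := const_V h3.th (fun i => (D i : L))
    (fun i => h3.nat_le (D i)) hD0 (fun i => (ED (D i : K)).baseChange L)
    (funext fun i => base_EDN L (D i))
    {fun i => pm (ED (D i : K)) (Algebra.ofId K L) (y i)} (Set.finite_singleton _) P
    (fun k => ⟨_, rfl, h k⟩)
  rw [Set.mem_singleton_iff] at hy'
  subst hy'
  intro i
  obtain ⟨m, hm, h2⟩ := h1 i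
  exact near_T (hD i) hT hm h2

end

section

variable {K : Type} [Field K] [NumberField K] {n : ℕ} {D : Fin n → ℕ}

/-- division points over the maximal unramified extension -/
theorem div_unram {F Ω M : Type} [Field F] [Field Ω] [Algebra K F] [Algebra F Ω]
    [Algebra K Ω] [IsScalarTower K F Ω] [IsAlgClosed Ω] {D : ℕ} (hD : D ≠ 0)
    (j : AlgebraicClosure K →ₐ[K] Ω)
    (U : Set (ValuationSubring F)) (hU : ∀ O ∈ U, ∀ c : K, algebraMap K F c ∈ O)
    [Field M] [Algebra F M] [Algebra K M] [IsScalarTower K F M] (e : M →ₐ[F] Ω)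
    (he : unramified F Ω U ≤ e.fieldRange)
    (P : ((ED (D : K)).baseChange F).toAffine.Point) {N : ℕ} (hN : 1 ≤ N) :
    ∃ Q : ((ED (D : K)).baseChange M).toAffine.Point,
      N • Q = pm (ED (D : K)) (IsScalarTower.toAlgHom K F M) P := by
  obtain ⟨Q, hQ⟩ := exists_div_unram (disc_SD (K := K) hD) j U hU e he (th K D F P) hN
  refine ⟨(th K D M).symm Q, ?_⟩
  rw [← map_nsmul, hQ, th_symm_pm, AddEquiv.symm_apply_apply]

section one

variable {F M B : Type} [Field F] [Field M] [Field B] [Algebra K F]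
  [Algebra F M] [Algebra K M] [IsScalarTower K F M] [Algebra K B] [IsAlgClosure K B]
  [Algebra.IsAlgebraic F M]

/-- the local points of a section, in the closed subset -/
theorem local_all (hD : ∀ i, ¬ 3 ∣ D i) {S : Set (MvPolynomial (Fin n × Fin 3) K)}
    (hS : ∀ f ∈ S, ∃ d, MultiHom d f)
    (P : (i : Fin n) → ((ED (D i : K)).baseChange F).toAffine.Point)
    (hPS : OnX S (fun i => crd (P i))) (s : GalSection K F M B)
    (pl : ∀ v : HeightOneSpectrum (𝓞 K), Plc K M (AlgebraicClosure (v.adicCompletion K)))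
    (hp : ∀ v, s.GivenBy (v.adicCompletion K) (pl v)) (v : HeightOneSpectrum (𝓞 K)) :
    ∃ Pv : (i : Fin n) → ((ED (D i : K)).baseChange (v.adicCompletion K)).toAffine.Point,
      OnX S (fun i => crd (Pv i)) ∧
      (∀ i, (pl v).Spec (fun j => algebraMap F M (crd (P i) j)) (fun j =>
        algebraMap (v.adicCompletion K) (AlgebraicClosure (v.adicCompletion K)) (crd (Pv i) j))) ∧
      ∀ (i : Fin n) (N : ℕ) (y : ((ED (D i : K)).baseChange K).toAffine.Point),
        LiftsDiff s (ED (D i : K)) (P i) y N →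
        ∃ z, Pv i = pm (ED (D i : K)) (Algebra.ofId K (v.adicCompletion K)) y + N • z := by
  have hD0 : ∀ i, D i ≠ 0 := fun i h0 => hD i (h0 ▸ dvd_zero 3)
  choose Pv h1 h2 using fun i => local3 (hD0 i) s (geo s pl hp v) (P i)
  refine ⟨Pv, ?_, fun i => ?_, h2⟩
  · have hX : OnX S (fun i j => algebraMap (v.adicCompletion K)
        (AlgebraicClosure (v.adicCompletion K)) (crd (Pv i) j)) := by
      refine onX_red (pl v) hS (V := fun i j => algebraMap F M (crd (P i) j)) (fun i => ?_) ?_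
      · obtain ⟨u, hu0, hu⟩ := h1 i
        exact ⟨u, hu0, fun j => hu j⟩
      · intro q hq
        have h3 := congrArg (IsScalarTower.toAlgHom K F M) (hPS q hq)
        rw [map_zero, comp_aeval_apply] at h3
        exact h3
    intro f hf
    have h3 := hX f hf
    have h4 := aeval_algebraMap_apply (AlgebraicClosure (v.adicCompletion K))
      (fun t : Fin n × Fin 3 => crd (Pv t.1) t.2) f
    have h5 := h4.symm.trans h3
    exact (map_eq_zero _).1 h5
  · obtain ⟨u, hu0, hu⟩ := h1 i
    refine ⟨u, hu0, fun j => ?_⟩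
    obtain ⟨h3, h4⟩ := hu j
    exact ⟨h3, h4⟩

/-- **Sections are near rational points.** -/
theorem sections_near (hD : ∀ i, ¬ 3 ∣ D i) (s0 : ℕ)
    (hfin : ∀ i, Finite (ED (D i : K)).toAffine.Point) (hsha : ∀ i, Kill (ED (D i : K)) s0)
    (hcx : ∀ w : InfinitePlace K, w.IsComplex)
    (h3 : ∀ v : HeightOneSpectrum (𝓞 K), ((3 : ℕ) : 𝓞 K) ∈ v.asIdeal →
      Three (v.adicCompletion K) ∧ Tors (v.adicCompletion K))
    {S : Set (MvPolynomial (Fin n × Fin 3) K)} (hS : ∀ f ∈ S, ∃ d, MultiHom d f)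
    (P : (i : Fin n) → ((ED (D i : K)).baseChange F).toAffine.Point)
    (hPS : OnX S (fun i => crd (P i))) (s : GalSection K F M B)
    (pl : ∀ v : HeightOneSpectrum (𝓞 K), Plc K M (AlgebraicClosure (v.adicCompletion K)))
    (hp : ∀ v, s.GivenBy (v.adicCompletion K) (pl v))
    (hdiv : ∀ (k : ℕ) (i : Fin n), ∃ Q : ((ED (D i : K)).baseChange M).toAffine.Point,
      3 ^ k • Q = pm (ED (D i : K)) (IsScalarTower.toAlgHom K F M) (P i)) :
    ∃ y : (i : Fin n) → ((ED (D i : K)).baseChange K).toAffine.Point,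
      (∀ (k : ℕ) (i : Fin n), LiftsDiff s (ED (D i : K)) (P i) (y i) (3 ^ k)) ∧
      ∀ v : HeightOneSpectrum (𝓞 K), ((3 : ℕ) : 𝓞 K) ∈ v.asIdeal →
        ∃ Pv : (i : Fin n) → ((ED (D i : K)).baseChange (v.adicCompletion K)).toAffine.Point,
          OnX S (fun i => crd (Pv i)) ∧
          (∀ i, (pl v).Spec (fun j => algebraMap F M (crd (P i) j)) (fun j =>
            algebraMap (v.adicCompletion K) (AlgebraicClosure (v.adicCompletion K))
              (crd (Pv i) j))) ∧
          ∀ i, NearT (D i) (v.adicCompletion K) (Pv i) (y i) := by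
  have hD0 : ∀ i, D i ≠ 0 := fun i h0 => hD i (h0 ▸ dvd_zero 3)
  have hfin' : ∀ i, Finite ((ED (D i : K)).baseChange K).toAffine.Point := fun i => hfin i
  have h1 : ∀ i, ∃ y, ∀ k : ℕ, LiftsDiff s (ED (D i : K)) (P i) y (3 ^ k) := by
    intro i
    refine exists_one (hfin' i) fun k => ?_
    obtain ⟨Q, hQ⟩ := hdiv (k + s0) i
    exact core3 (hD0 i) (hsha i) hcx s pl hp (P i) Q hQ
  choose y hy using h1
  refine ⟨y, fun k i => hy i k, fun v hv => ?_⟩
  obtain ⟨Pv, h4, h5, h6⟩ := local_all hD hS P hPS s pl hp v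
  have inst3 : ProperSpace (v.adicCompletion K) := Pool.Agent.Y791.BS.proper v
  exact ⟨Pv, h4, h5, near_const (h3 v hv).1 (h3 v hv).2 hD Pv y fun k i => h6 i _ _ (hy i k)⟩

end one

/-- **No sections of finite level.** -/
theorem no_section (hD : ∀ i, ¬ 3 ∣ D i) (s0 : ℕ)
    (hfin : ∀ i, Finite (ED (D i : K)).toAffine.Point) (hsha : ∀ i, Kill (ED (D i : K)) s0)
    (hcx : ∀ w : InfinitePlace K, w.IsComplex)
    {S : Set (MvPolynomial (Fin n × Fin 3) K)} (hS : ∀ f ∈ S, ∃ d, MultiHom d f)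
    (v : HeightOneSpectrum (𝓞 K)) (h3 : Three (v.adicCompletion K)) (hT : Tors (v.adicCompletion K))
    (h : ∀ k : ℕ, ¬ ∀ (F M B : Type) [Field F] [Field M] [Field B] [Algebra K F]
      [Algebra F M] [Algebra K M] [Algebra K B] [IsScalarTower K F M] [IsAlgClosure K B]
      [Algebra.IsAlgebraic F M]
      (P : (i : Fin n) → ((ED (D i : K)).baseChange F).toAffine.Point),
      OnX S (fun i => crd (P i)) →
      (∀ i, ∃ Q : ((ED (D i : K)).baseChange M).toAffine.Point,
        3 ^ k • Q = pm (ED (D i : K)) (IsScalarTower.toAlgHom K F M) (P i)) →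
      ¬ ∃ (s : GalSection K F M B) (pl : ∀ v : HeightOneSpectrum (𝓞 K),
          Plc K M (AlgebraicClosure (v.adicCompletion K))),
          ∀ v, s.GivenBy (v.adicCompletion K) (pl v)) :
    ∃ Pv : (i : Fin n) → ((ED (D i : K)).baseChange (v.adicCompletion K)).toAffine.Point,
      OnX S (fun i => crd (Pv i)) ∧
      ∃ y : (i : Fin n) → ((ED (D i : K)).baseChange K).toAffine.Point,
        ∀ i, NearT (D i) (v.adicCompletion K) (Pv i) (y i) := by
  have hD0 : ∀ i, D i ≠ 0 := fun i h0 => hD i (h0 ▸ dvd_zero 3)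
  have inst3 : ProperSpace (v.adicCompletion K) := Pool.Agent.Y791.BS.proper v
  refine gen2 h3 hT hD hfin S hS fun k => ?_
  by_contra hcon
  refine h (k + s0) ?_
  intro F M B _ _ _ _ _ _ _ _ _ _ P hPS hdiv
  rintro ⟨s, pl, hp⟩
  apply hcon
  have h1 : ∀ i, ∃ y, LiftsDiff s (ED (D i : K)) (P i) y (3 ^ k) := by
    intro i
    obtain ⟨Q, hQ⟩ := hdiv i
    exact core3 (hD0 i) (hsha i) hcx s pl hp (P i) Q hQ
  choose y hy using h1
  obtain ⟨Pv, h4, -, h6⟩ := local_all hD hS P hPS s pl hp v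
  exact ⟨Pv, h4, y, fun i => h6 i _ _ (hy i)⟩

end

end Pool.Agent.U188.CS
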