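import Pool.Agent.U188.CT.Eqv
import Pool.Agent.U188.SC.Main

/-!
# The curves `y² + D y = x³` and `y² = x³ + D² / 4` over all extensions of a field
-/

set_option autoImplicit false
set_option linter.all false

open IsDedekindDomain NumberField WeierstrassCurve MvPolynomial

namespace Pool.Agent.U188.CS

open Pool.Agent.TH954
open Pool.Agent.R419.ST
open Pool.Agent.Y696.CTK (ED)
open Pool.Agent.TH942 (sw)
open Pool.Agent.U188.CT (base_EDN)

open scoped Classical

section

variable {L : Type} [Field L]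

/-- the isomorphism for curves which are equal to the two curves -/
noncomputable def thW (h2 : (2 : L) ≠ 0) (d : L) {W W' : WeierstrassCurve L} (hW : W = WE d)
    (hW' : W' = WS d) : W.toAffine.Point ≃+ W'.toAffine.Point := by
  subst hW
  subst hW'
  exact isoS h2 d

lemma thW_some (h2 : (2 : L) ≠ 0) (d : L) {W W' : WeierstrassCurve L} (hW : W = WE d)
    (hW' : W' = WS d) {x y : L} (h : W.toAffine.Nonsingular x y) :
    ∃ h', thW h2 d hW hW' (.some x y h) = .some x (y + d / 2) h' := by
  subst hW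
  subst hW'
  exact ⟨_, rfl⟩

end

variable {K : Type} [Field K] [CharZero K]

/-- the short model -/
noncomputable abbrev SD (K : Type) [Field K] (D : ℕ) : WeierstrassCurve K := sw (0 : K) ((D : K) ^ 2 / 4)

lemma base_SD (L : Type) [Field L] [Algebra K L] (D : ℕ) :
    (SD K D).baseChange L = WS (D : L) := by
  show (sw (0 : K) ((D : K) ^ 2 / 4)).map (algebraMap K L) = _
  ext <;> simp [sw, WS, WeierstrassCurve.map, map_ofNat]

lemma disc_SD {D : ℕ} (hD : D ≠ 0) : 4 * (0 : K) ^ 3 + 27 * ((D : K) ^ 2 / 4) ^ 2 ≠ 0 := by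
  have : (D : K) ≠ 0 := by exact_mod_cast hD
  have h2 : (4 : K) ≠ 0 := by norm_num
  have h3 : (27 : K) ≠ 0 := by norm_num
  rw [zero_pow (by norm_num), mul_zero, zero_add]
  exact mul_ne_zero h3 (pow_ne_zero 2 (div_ne_zero (pow_ne_zero 2 this) h2))

lemma two_ne_of (L : Type) [Field L] [Algebra K L] : (2 : L) ≠ 0 := by
  have : CharZero L := charZero_of_injective_algebraMap (algebraMap K L).injective
  exact two_ne_zero

/-- the isomorphism over an extension -/
noncomputable def th (K : Type) [Field K] [CharZero K] (D : ℕ) (L : Type) [Field L] [Algebra K L] :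
    ((ED (D : K)).baseChange L).toAffine.Point ≃+ ((SD K D).baseChange L).toAffine.Point :=
  thW (two_ne_of (K := K) L) (D : L) (base_EDN L D) (base_SD L D)

lemma th_some (D : ℕ) {L : Type} [Field L] [Algebra K L] {x y : L}
    (h : ((ED (D : K)).baseChange L).toAffine.Nonsingular x y) :
    ∃ h', th K D L (.some x y h) = .some x (y + (D : L) / 2) h' :=
  thW_some _ _ _ _ h

/-- the isomorphism is natural -/
theorem th_pm (D : ℕ) {L₁ L₂ : Type} [Field L₁] [Algebra K L₁] [Field L₂] [Algebra K L₂]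
    (f : L₁ →ₐ[K] L₂) (P : ((ED (D : K)).baseChange L₁).toAffine.Point) :
    th K D L₂ (pm (ED (D : K)) f P) = pm (SD K D) f (th K D L₁ P) := by
  rcases P with _ | ⟨x, y, h⟩
  · have e1 : pm (ED (D : K)) f (Affine.Point.zero : ((ED (D : K)).baseChange L₁).toAffine.Point) = 0 :=
      map_zero _
    have e2 : th K D L₁ (Affine.Point.zero : ((ED (D : K)).baseChange L₁).toAffine.Point) = 0 :=
      map_zero _
    rw [e1, e2, map_zero, map_zero]
  · obtain ⟨h1, e1⟩ := pm_some (E := ED (D : K)) f h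
    obtain ⟨h2, e2⟩ := th_some D (K := K) h
    obtain ⟨h3, e3⟩ := th_some D (K := K) h1
    obtain ⟨h4, e4⟩ := pm_some (E := SD K D) f h2
    rw [e1, e2, e3, e4, Affine.Point.some.injEq]
    refine ⟨rfl, ?_⟩
    rw [map_add, map_div₀, map_natCast, map_ofNat]

theorem th_symm_pm (D : ℕ) {L₁ L₂ : Type} [Field L₁] [Algebra K L₁] [Field L₂] [Algebra K L₂]
    (f : L₁ →ₐ[K] L₂) (P : ((SD K D).baseChange L₁).toAffine.Point) :
    (th K D L₂).symm (pm (SD K D) f P) = pm (ED (D : K)) f ((th K D L₁).symm P) := by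
  rw [AddEquiv.symm_apply_eq, th_pm, AddEquiv.apply_symm_apply]

lemma th_act (D : ℕ) {L : Type} [Field L] [Algebra K L]
    (σ : AlgebraicClosure L ≃ₐ[L] AlgebraicClosure L) (P : AlgPt (ED (D : K)) L) :
    th K D _ (act (ED (D : K)) σ P) = act (SD K D) σ (th K D _ P) := th_pm D _ P

lemma th_symm_act (D : ℕ) {L : Type} [Field L] [Algebra K L]
    (σ : AlgebraicClosure L ≃ₐ[L] AlgebraicClosure L) (P : AlgPt (SD K D) L) :
    (th K D _).symm (act (SD K D) σ P) = act (ED (D : K)) σ ((th K D _).symm P) := th_symm_pm D _ P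

/-- the cocycle with values in the other curve -/
noncomputable def back (D : ℕ) (ξ : (AlgebraicClosure K ≃ₐ[K] AlgebraicClosure K) → AlgPt (SD K D) K) :
    (AlgebraicClosure K ≃ₐ[K] AlgebraicClosure K) → AlgPt (ED (D : K)) K :=
  fun σ => (th K D _).symm (ξ σ)

lemma back_coc {D : ℕ} {ξ : (AlgebraicClosure K ≃ₐ[K] AlgebraicClosure K) → AlgPt (SD K D) K}
    (h : IsCocycle (SD K D) ξ) : IsCocycle (ED (D : K)) (back D ξ) := by
  obtain ⟨h1, F, hF, h2⟩ := h
  refine ⟨fun σ τ => ?_, F, hF, fun σ τ hστ => ?_⟩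
  · unfold back
    rw [h1, map_add, th_symm_act]
  · unfold back
    rw [h2 σ τ hστ]

lemma back_triv {D : ℕ} {ξ : (AlgebraicClosure K ≃ₐ[K] AlgebraicClosure K) → AlgPt (SD K D) K}
    {L : Type} [Field L] [Algebra K L] (h : TrivialOver (SD K D) ξ L) :
    TrivialOver (ED (D : K)) (back D ξ) L := by
  obtain ⟨ι, Q, h⟩ := h
  refine ⟨ι, (th K D _).symm Q, fun σ τ hστ => ?_⟩
  unfold back
  rw [← th_symm_pm, h σ τ hστ, map_sub, th_symm_act]

/-! ### the complex places -/

lemma complex_triv {E : WeierstrassCurve K}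
    {ξ : (AlgebraicClosure K ≃ₐ[K] AlgebraicClosure K) → AlgPt E K} (h : IsCocycle E ξ)
    (w : InfinitePlace K) (hw : w.IsComplex) : TrivialOver E ξ w.Completion := by
  have : IsAlgClosed w.Completion :=
    IsAlgClosed.of_ringEquiv ℂ _ (InfinitePlace.Completion.ringEquivComplexOfIsComplex hw).symm
  have hb : Function.Surjective (algebraMap w.Completion (AlgebraicClosure w.Completion)) :=
    (IsAlgClosed.algebraMap_bijective_of_isIntegral (k := w.Completion)
      (K := AlgebraicClosure w.Completion)).2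
  let ι : AlgebraicClosure K →ₐ[K] AlgebraicClosure w.Completion :=
    IsAlgClosed.lift (R := K) (S := AlgebraicClosure K) (M := AlgebraicClosure w.Completion)
  refine ⟨ι, 0, fun σ τ hστ => ?_⟩
  have h1 : ∀ x, σ x = x := by
    intro x
    obtain ⟨y, rfl⟩ := hb x
    exact σ.commutes y
  have h2 : τ = 1 := by
    apply AlgEquiv.ext
    intro z
    have h0 : ι (τ z) = ι z := (hστ z).trans (h1 _)
    exact ι.injective h0
  have h3 : ∀ T : AlgPt E K, act E (1 : AlgebraicClosure K ≃ₐ[K] AlgebraicClosure K) T = T := by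
    intro T
    cases T <;> rfl
  have h4 : ξ 1 = 0 := by
    have := h.1 1 1
    rw [one_mul, h3] at this
    exact left_eq_add.mp this
  have h5 : act E σ (0 : AlgPt E w.Completion) = 0 := map_zero (pm E _)
  rw [h2, h4, map_zero, h5, sub_zero]

omit [CharZero K] in
lemma isComplex_of {z : K} (hz : z ^ 2 + z + 1 = 0) (w : InfinitePlace K) : w.IsComplex := by
  rcases w.isReal_or_isComplex with h | h
  · exfalso
    have h1 := congrArg (InfinitePlace.embedding_of_isReal h) hz
    rw [map_add, map_add, map_pow, map_one, map_zero] at h1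
    nlinarith [sq_nonneg (2 * InfinitePlace.embedding_of_isReal h z + 1)]
  · exact h

end Pool.Agent.U188.CS
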