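import Pool.Agent.U188.CS.Core

/-!
# Sections over curves with a map to a product of cubic twists
-/

set_option autoImplicit false
set_option linter.all false

namespace Pool.Agent.U188.CS

open NumberField IsDedekindDomain WeierstrassCurve MvPolynomial
open Pool.Agent.TH954
open Pool.Agent.TH942 (sw)
open Pool.Agent.Y696.CTK (ED)
open Pool.Agent.R419.ST (const_V lim_V)
open Pool.Agent.U188.CT (Kill Three Tors NearT near_T crd_pm' base_EDN gen2)
open Pool.Agent.U188.SC (FixedBy LiftsTo geo fixedP)
open scoped Classical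

section

variable {K : Type} [Field K] [CharZero K]

lemma crd_th (D : ℕ) {L : Type} [Field L] [Algebra K L]
    (P : ((ED (D : K)).baseChange L).toAffine.Point) (j : Fin 3) :
    crd P j = crd (th K D L P) j - (if j = 1 then (D : L) / 2 else 0) * crd (th K D L P) 2 := by
  rcases P with _ | ⟨x, y, h⟩
  · have e2 : th K D L (Affine.Point.zero : ((ED (D : K)).baseChange L).toAffine.Point) =
        (Affine.Point.zero : ((SD K D).baseChange L).toAffine.Point) := map_zero _
    rw [e2]
    change ![(0 : L), 1, 0] j = ![(0 : L), 1, 0] j - _ * ![(0 : L), 1, 0] 2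
    simp
  · obtain ⟨h1, e1⟩ := th_some D (K := K) h
    rw [e1]
    change ![x, y, 1] j = ![x, y + (D : L) / 2, 1] j - _ * ![x, y + (D : L) / 2, 1] 2
    fin_cases j <;> simp

end

section

variable {K F M B : Type} [Field K] [NumberField K] [Field F] [Field M] [Field B] [Algebra K F]
  [Algebra F M] [Algebra K M] [IsScalarTower K F M] [Algebra K B] [IsAlgClosure K B]
  [Algebra.IsAlgebraic F M]

/-- Some `N`-th division point over `M` of the difference of the point `P` over `F` and the point `y`
over `K` is fixed by all `s g`: the section `s` lifts to the `N`-covering of `P - y`. -/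
def LiftsDiff (s : GalSection K F M B) (E : WeierstrassCurve K)
    (P : (E.baseChange F).toAffine.Point) (y : (E.baseChange K).toAffine.Point) (N : ℕ) : Prop :=
  ∃ Q : (E.baseChange M).toAffine.Point,
    N • Q = pm E (IsScalarTower.toAlgHom K F M) P - pm E (Algebra.ofId K M) y ∧ FixedBy s E Q

omit [NumberField K] [IsScalarTower K F M] [IsAlgClosure K B] [Algebra.IsAlgebraic F M] in
lemma algHom_K {L : Type} [Field L] [Algebra K L] (f g : K →ₐ[K] L) : f = g := by
  apply AlgHom.ext
  intro x
  exact (f.commutes x).trans (g.commutes x).symm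

lemma toSAct_pt (s : GalSection K F M B) {a b : K} (g : B ≃ₐ[K] B)
    (Q : ((sw a b).baseChange M).toAffine.Point) :
    (toSAct s).pt a b ((eqv K B).autCongr.symm g) Q =
      pm (sw a b) ((s.s g : M →ₐ[F] M).restrictScalars K) Q := by
  unfold SAct.pt
  congr 2
  apply AlgHom.ext
  intro z
  exact toSAct_s s g z

/-- the inclusion of rational points -/
lemma pm_incl (E : WeierstrassCurve K) (j : AlgebraicClosure K →ₐ[K] M)
    (y : (E.baseChange K).toAffine.Point) :
    pm E j (incl E K y) = pm E (Algebra.ofId K M) y := by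
  unfold incl
  rw [pm_pm]
  exact congrArg (fun f => pm E f y) (algHom_K _ _)

/-- **The section lifts to the coverings, up to a rational point.** -/
theorem core3 {D s0 : ℕ} (hD : D ≠ 0) (hkill : Kill (ED (D : K)) s0)
    (hcx : ∀ w : InfinitePlace K, w.IsComplex) (s : GalSection K F M B)
    (pl : ∀ v : HeightOneSpectrum (𝓞 K), Plc K M (AlgebraicClosure (v.adicCompletion K)))
    (hp : ∀ v, s.GivenBy (v.adicCompletion K) (pl v))
    (P : ((ED (D : K)).baseChange F).toAffine.Point) {k : ℕ}
    (Q : ((ED (D : K)).baseChange M).toAffine.Point)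
    (hQ : 3 ^ (k + s0) • Q = pm (ED (D : K)) (IsScalarTower.toAlgHom K F M) P) :
    ∃ y : ((ED (D : K)).baseChange K).toAffine.Point, LiftsDiff s (ED (D : K)) P y (3 ^ k) := by
  obtain ⟨y, Q', h1, h2⟩ := lifts_diff hD hkill hcx (toSAct s)
    (P := pm (SD K D) (IsScalarTower.toAlgHom K F M) (th K D F P)) (fixedP s _) (k := k)
    (Q := th K D M Q) (by rw [← map_nsmul, hQ, th_pm])
    (fun T hT => torsion_mem_sub (disc_SD hD)
      ((IsScalarTower.toAlgHom K M (AlgebraicClosure M)) : M →ₐ[K] AlgebraicClosure M)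
      (toSAct s).j (3 ^ (k + s0)) (Nat.one_le_pow _ _ (by norm_num)) T hT) pl (geo s pl hp)
  refine ⟨(th K D K).symm y, (th K D M).symm Q', ?_, fun g => ?_⟩
  · rw [← map_nsmul, h1, map_sub, pm_incl, th_symm_pm, th_symm_pm, AddEquiv.symm_apply_apply]
  · rw [← th_symm_pm, ← toSAct_pt]
    exact congrArg _ (h2 _)

/-- the local points of a section -/
theorem local3 {D : ℕ} (hD : D ≠ 0) (s : GalSection K F M B)
    {v : HeightOneSpectrum (𝓞 K)} {pl : Plc K M (AlgebraicClosure (v.adicCompletion K))}
    (hp : GeoPlc (toSAct s) pl) (P : ((ED (D : K)).baseChange F).toAffine.Point) :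
    ∃ Pv : ((ED (D : K)).baseChange (v.adicCompletion K)).toAffine.Point,
      (∃ u : M, u ≠ 0 ∧ ∀ j, ∃ h : u * algebraMap F M (crd P j) ∈ pl.W, pl.ρ ⟨_, h⟩ =
          algebraMap (v.adicCompletion K) (AlgebraicClosure (v.adicCompletion K)) (crd Pv j)) ∧
      ∀ (N : ℕ) (y : ((ED (D : K)).baseChange K).toAffine.Point),
        LiftsDiff s (ED (D : K)) P y N →
        ∃ z : ((ED (D : K)).baseChange (v.adicCompletion K)).toAffine.Point,
          Pv = pm (ED (D : K)) (Algebra.ofId K (v.adicCompletion K)) y + N • z := by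
  obtain ⟨Pv, ⟨u, hu0, hu⟩, h2⟩ := locals_diff (disc_SD (K := K) hD) (toSAct s) hp
    (pm (SD K D) (IsScalarTower.toAlgHom K F M) (th K D F P)) (fixedP s _)
  have hL : (2 : v.adicCompletion K) ≠ 0 := two_ne_of (K := K) _
  refine ⟨(th K D _).symm Pv, ⟨u, hu0, fun j => ?_⟩, fun N y hy => ?_⟩
  · -- coordinates
    have e1 : ∀ j, crd (pm (SD K D) (IsScalarTower.toAlgHom K F M) (th K D F P)) j =
        algebraMap F M (crd (th K D F P) j) := fun j => Pool.Agent.TH954.crd_pm _ _ _
    have e2 : algebraMap F M (crd P j) =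
        crd (pm (SD K D) (IsScalarTower.toAlgHom K F M) (th K D F P)) j -
          (if j = 1 then algebraMap K M ((D : K) / 2) else 0) *
            crd (pm (SD K D) (IsScalarTower.toAlgHom K F M) (th K D F P)) 2 := by
      rw [e1, e1, crd_th D P j, map_sub, map_mul]
      congr 2
      split_ifs
      · rw [map_div₀, map_div₀, map_natCast, map_natCast, map_ofNat, map_ofNat]
      · exact map_zero _
    have e3 : crd ((th K D _).symm Pv) j = crd Pv j -
        (if j = 1 then algebraMap K (v.adicCompletion K) ((D : K) / 2) else 0) * crd Pv 2 := by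
      rw [crd_th D ((th K D _).symm Pv) j, AddEquiv.apply_symm_apply]
      congr 2
      split_ifs
      · rw [map_div₀, map_natCast, map_ofNat]
      · rfl
    obtain ⟨h3, h4⟩ := hu j
    obtain ⟨h5, h6⟩ := hu 2
    obtain ⟨h7, h8⟩ := pl.comm (if j = 1 then (D : K) / 2 else 0)
    have e4 : (if j = 1 then algebraMap K M ((D : K) / 2) else 0) =
        algebraMap K M (if j = 1 then (D : K) / 2 else 0) := by
      split_ifs
      · rfl
      · exact (map_zero _).symm
    have e5 : (if j = 1 then algebraMap K (v.adicCompletion K) ((D : K) / 2) else 0) =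
        algebraMap K (v.adicCompletion K) (if j = 1 then (D : K) / 2 else 0) := by
      split_ifs
      · rfl
      · exact (map_zero _).symm
    have e6 : u * algebraMap F M (crd P j) =
        u * crd (pm (SD K D) (IsScalarTower.toAlgHom K F M) (th K D F P)) j -
          algebraMap K M (if j = 1 then (D : K) / 2 else 0) *
            (u * crd (pm (SD K D) (IsScalarTower.toAlgHom K F M) (th K D F P)) 2) := by
      rw [e2, e4]
      ring
    have key : ∀ x : M, x = u * crd (pm (SD K D) (IsScalarTower.toAlgHom K F M) (th K D F P)) j -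
          algebraMap K M (if j = 1 then (D : K) / 2 else 0) *
            (u * crd (pm (SD K D) (IsScalarTower.toAlgHom K F M) (th K D F P)) 2) →
        ∃ h : x ∈ pl.W, pl.ρ ⟨x, h⟩ =
          algebraMap (v.adicCompletion K) (AlgebraicClosure (v.adicCompletion K))
            (crd ((th K D _).symm Pv) j) := by
      rintro x rfl
      refine ⟨sub_mem h3 (mul_mem h7 h5), ?_⟩
      have e7 : (⟨_, sub_mem h3 (mul_mem h7 h5)⟩ : pl.W) =
          ⟨_, h3⟩ - ⟨_, h7⟩ * ⟨_, h5⟩ := rfl
      rw [e7, map_sub, map_mul, h4, h6, h8, e3, map_sub, map_mul, e5]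
      rfl
    exact key _ e6
  · obtain ⟨Q, hQ, hf⟩ := hy
    obtain ⟨z, hz⟩ := h2 N (th K D K y) (th K D M Q) (by
      rw [← map_nsmul, hQ, map_sub, pm_incl, th_pm, th_pm]) (fun τ => by
      obtain ⟨g, rfl⟩ := (eqv K B).autCongr.symm.surjective τ
      rw [toSAct_pt, ← th_pm, hf g])
    refine ⟨(th K D _).symm z, ?_⟩
    rw [hz, map_add, map_nsmul, th_symm_pm, AddEquiv.symm_apply_apply]

end

end Pool.Agent.U188.CS
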